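import Mathlib

/-!
MP_66ba75_co.  For every fixed `k ≥ 2` and all large `n` the maximisers of `e_k(n, ·)` are the
integers in `[x₁, x₁ + 1]` and their reflections, where `x₁` is the least real zero of the
Krawtchouk polynomial `K_{2k-1}(x; n - 1)`.

Outline.  `K_{2k}(a; n) - K_{2k}(a + 1; n) = 2 K_{2k-1}(a; n - 1)`, so `K_{2k}(·; n)` decreases up
to `⌈x₁⌉`.  After rescaling, the Krawtchouk polynomials converge to Hermite polynomials, for which
Sonin's argument shows that the outermost local minimum is the global one.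
-/

set_option autoImplicit false

namespace Pool.Agent.Results.MP_66ba75_co.LeastZero

open Finset

/-- The number of edges of the complete oddly bipartite `2k`-graph with parts of sizes `a` and
`n - a`. -/
def e (k n a : ℕ) : ℕ :=
  ∑ i ∈ (range (2 * k + 1)).filter Odd, a.choose i * (n - a).choose (2 * k - i)

/-- The set `M_k(n)` of maximisers of `e_k(n, ·)` on `{0, …, n}`. -/
def M (k n : ℕ) : Set ℕ := {a | a ≤ n ∧ ∀ b ≤ n, e k n b ≤ e k n a}

/-- The binomial coefficient `binom(x, j)` for real `x`. -/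
noncomputable def gb (x : ℝ) (j : ℕ) : ℝ := (∏ i ∈ range j, (x - i)) / (j.factorial : ℝ)

/-- The binary Krawtchouk polynomial `K_m(x; N)`. -/
noncomputable def kraw (m : ℕ) (N x : ℝ) : ℝ :=
  ∑ j ∈ range (m + 1), (-1) ^ j * gb x j * gb (N - x) (m - j)

lemma gb_zero (x : ℝ) : gb x 0 = 1 := by simp [gb]

lemma gb_succ (x : ℝ) (j : ℕ) : ((j : ℝ) + 1) * gb x (j + 1) = (x - j) * gb x j := by
  unfold gb
  rw [prod_range_succ, Nat.factorial_succ]
  have h1 : (j.factorial : ℝ) ≠ 0 := by exact_mod_cast Nat.factorial_ne_zero j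
  have h2 : ((j : ℝ) + 1) ≠ 0 := by positivity
  push_cast
  field_simp

lemma gb_pascal (x : ℝ) (j : ℕ) : gb (x + 1) (j + 1) = gb x (j + 1) + gb x j := by
  unfold gb
  have h1 : (j.factorial : ℝ) ≠ 0 := by exact_mod_cast Nat.factorial_ne_zero j
  have h2 : ((j : ℝ) + 1) ≠ 0 := by positivity
  have h3 : ∏ i ∈ range (j + 1), (x + 1 - (i : ℝ)) = (∏ i ∈ range j, (x - i)) * (x + 1) := by
    rw [prod_range_succ']
    congr 1
    · refine prod_congr rfl fun i _ => ?_
      push_cast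
      ring
    · push_cast
      ring
  rw [h3, prod_range_succ, Nat.factorial_succ]
  push_cast
  field_simp
  ring

lemma kraw_eq (m : ℕ) (N x : ℝ) : kraw m N x =
    ∑ p ∈ antidiagonal m, ((-1) ^ p.1 * gb x p.1) * gb (N - x) p.2 := by
  unfold kraw
  rw [Finset.Nat.sum_antidiagonal_eq_sum_range_succ
    (fun j i => ((-1) ^ j * gb x j) * gb (N - x) i)]

/-- three-term recurrence -/
lemma kraw_rec (m : ℕ) (N x : ℝ) :
    ((m : ℝ) + 2) * kraw (m + 2) N x =
      (N - 2 * x) * kraw (m + 1) N x - (N - m) * kraw m N x := by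
  set u : ℕ → ℝ := fun j => (-1) ^ j * gb x j with hu
  set v : ℕ → ℝ := fun i => gb (N - x) i with hv
  have hu1 : ∀ j : ℕ, ((j : ℝ) + 1) * u (j + 1) = (j - x) * u j := by
    intro j
    have h := gb_succ x j
    simp only [hu]
    rw [pow_succ]
    linear_combination (-(-1 : ℝ) ^ j) * h
  have hv1 : ∀ i : ℕ, ((i : ℝ) + 1) * v (i + 1) = (N - x - i) * v i := fun i => gb_succ _ i
  have hK : ∀ m, kraw m N x = ∑ p ∈ antidiagonal m, u p.1 * v p.2 := fun m => kraw_eq m N x
  set A : ℕ → ℝ := fun m => ∑ p ∈ antidiagonal m, (p.1 : ℝ) * (u p.1 * v p.2) with hA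
  set B : ℕ → ℝ := fun m => ∑ p ∈ antidiagonal m, (p.2 : ℝ) * (u p.1 * v p.2) with hB
  have hA1 : ∀ m, A (m + 1) = A m - x * kraw m N x := by
    intro m
    simp only [hA, hK]
    rw [Finset.Nat.sum_antidiagonal_succ, mul_sum, ← sum_sub_distrib]
    simp only [Nat.cast_zero, zero_mul, zero_add]
    refine sum_congr rfl fun p _ => ?_
    have h := hu1 p.1
    push_cast
    linear_combination v p.2 * h
  have hB1 : ∀ m, B (m + 1) = (N - x) * kraw m N x - B m := by
    intro m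
    simp only [hB, hK]
    rw [Finset.Nat.sum_antidiagonal_succ', mul_sum, ← sum_sub_distrib]
    simp only [Nat.cast_zero, zero_mul, zero_add]
    refine sum_congr rfl fun p _ => ?_
    have h := hv1 p.2
    push_cast
    linear_combination u p.1 * h
  have hAB : ∀ m, A m + B m = m * kraw m N x := by
    intro m
    simp only [hA, hB, hK]
    rw [mul_sum, ← sum_add_distrib]
    refine sum_congr rfl fun p hp => ?_
    rw [HasAntidiagonal.mem_antidiagonal] at hp
    have : (m : ℝ) = p.1 + p.2 := by exact_mod_cast hp.symm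
    rw [this]
    ring
  have h1 := hA1 (m + 1)
  have h2 := hB1 (m + 1)
  have h3 := hA1 m
  have h4 := hB1 m
  have h5 := hAB (m + 2)
  have h6 := hAB m
  push_cast at h5
  linear_combination -h5 + h1 + h2 + h3 - h4 + h6

lemma kraw_zero (N x : ℝ) : kraw 0 N x = 1 := by
  simp [kraw, gb_zero]

lemma gb_one (x : ℝ) : gb x 1 = x := by simp [gb]

lemma kraw_one (N x : ℝ) : kraw 1 N x = N - 2 * x := by
  unfold kraw
  rw [sum_range_succ, sum_range_one]
  simp [gb_zero, gb_one]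
  ring

lemma kraw_pascal₁ (m : ℕ) (N x : ℝ) :
    kraw (m + 1) (N + 1) x = kraw (m + 1) N x + kraw m N x := by
  simp only [kraw_eq]
  rw [Finset.Nat.sum_antidiagonal_succ', Finset.Nat.sum_antidiagonal_succ']
  have h : N + 1 - x = (N - x) + 1 := by ring
  have hs : ∑ p ∈ antidiagonal m, ((-1) ^ p.1 * gb x p.1) * gb (N + 1 - x) (p.2 + 1) =
      ∑ p ∈ antidiagonal m, ((-1) ^ p.1 * gb x p.1) * gb (N - x) (p.2 + 1) +
      ∑ p ∈ antidiagonal m, ((-1) ^ p.1 * gb x p.1) * gb (N - x) p.2 := by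
    rw [← sum_add_distrib]
    refine sum_congr rfl fun p _ => ?_
    rw [h, gb_pascal]
    ring
  simp only [hs, gb_zero]
  ring

lemma kraw_pascal₂ (m : ℕ) (N x : ℝ) :
    kraw (m + 1) (N + 1) (x + 1) = kraw (m + 1) N x - kraw m N x := by
  simp only [kraw_eq]
  rw [Finset.Nat.sum_antidiagonal_succ, Finset.Nat.sum_antidiagonal_succ]
  have h : N + 1 - (x + 1) = N - x := by ring
  have hs : ∑ p ∈ antidiagonal m, ((-1) ^ (p.1 + 1) * gb (x + 1) (p.1 + 1)) * gb (N - x) p.2 =
      ∑ p ∈ antidiagonal m, ((-1) ^ (p.1 + 1) * gb x (p.1 + 1)) * gb (N - x) p.2 -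
      ∑ p ∈ antidiagonal m, ((-1) ^ p.1 * gb x p.1) * gb (N - x) p.2 := by
    rw [← sum_sub_distrib]
    refine sum_congr rfl fun p _ => ?_
    rw [gb_pascal, pow_succ]
    ring
  simp only [h, hs, gb_zero]
  ring

lemma kraw_diff (m : ℕ) (N x : ℝ) :
    kraw (m + 1) (N + 1) x - kraw (m + 1) (N + 1) (x + 1) = 2 * kraw m N x := by
  rw [kraw_pascal₁, kraw_pascal₂]
  ring

lemma kraw_symm (m : ℕ) (N x : ℝ) : kraw m N (N - x) = (-1) ^ m * kraw m N x := by
  rw [kraw_eq, kraw_eq, ← Finset.Nat.sum_antidiagonal_swap, mul_sum]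
  refine sum_congr rfl fun p hp => ?_
  rw [HasAntidiagonal.mem_antidiagonal] at hp
  have h1 : N - (N - x) = x := by ring
  simp only [Prod.fst_swap, Prod.snd_swap]
  rw [h1, ← hp, pow_add]
  have h2 : ((-1 : ℝ) ^ p.1) * (-1) ^ p.1 = 1 := by
    rw [← pow_add, ← two_mul, pow_mul]; simp
  linear_combination (-(-1 : ℝ) ^ p.2 * gb (N - x) p.2 * gb x p.1) * h2

lemma gb_nat (a j : ℕ) : gb (a : ℝ) j = (a.choose j : ℝ) := by
  induction j with
  | zero => simp [gb_zero]
  | succ j ih =>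
    have h1 := gb_succ (a : ℝ) j
    have h2 := Nat.choose_succ_right_eq a j
    rw [ih] at h1
    have h3 : ((a.choose (j + 1) : ℝ)) * (j + 1) = (a.choose j : ℝ) * ((a : ℝ) - j) := by
      rcases le_or_gt j a with h | h
      · rw [← Nat.cast_sub h]
        exact_mod_cast h2
      · rw [Nat.choose_eq_zero_of_lt h, Nat.choose_eq_zero_of_lt (by omega)]
        simp
    have h4 : ((j : ℝ) + 1) ≠ 0 := by positivity
    have h5 : ((j : ℝ) + 1) * gb (a : ℝ) (j + 1) = ((j : ℝ) + 1) * (a.choose (j + 1) : ℝ) := by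
      linarith
    exact mul_left_cancel₀ h4 h5

lemma e_kraw {k n a : ℕ} (ha : a ≤ n) :
    2 * (e k n a : ℝ) + kraw (2 * k) n a = (n.choose (2 * k) : ℝ) := by
  have h1 : (n.choose (2 * k) : ℝ) =
      ∑ j ∈ range (2 * k + 1), (a.choose j : ℝ) * ((n - a).choose (2 * k - j) : ℝ) := by
    have h2 : n = a + (n - a) := by omega
    have h3 := Nat.add_choose_eq a (n - a) (2 * k)
    rw [← h2] at h3
    rw [h3]
    push_cast
    rw [Finset.Nat.sum_antidiagonal_eq_sum_range_succ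
      (fun j i => (a.choose j : ℝ) * ((n - a).choose i : ℝ))]
  rw [h1]
  unfold e kraw
  push_cast
  rw [sum_filter, mul_sum, ← sum_add_distrib]
  refine sum_congr rfl fun j _ => ?_
  rw [← Nat.cast_sub ha, gb_nat, gb_nat]
  by_cases hj : Odd j
  · rw [if_pos hj, hj.neg_one_pow]
    ring
  · rw [if_neg hj, (Nat.not_odd_iff_even.1 hj).neg_one_pow]
    ring

lemma mem_M_iff {k n a : ℕ} : a ∈ M k n ↔
    a ≤ n ∧ ∀ b : ℕ, b ≤ n → kraw (2 * k) n a ≤ kraw (2 * k) n b := by
  unfold M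
  rw [Set.mem_ofPred_eq]
  constructor
  · rintro ⟨ha, h⟩
    refine ⟨ha, fun b hb => ?_⟩
    have h1 := e_kraw (k := k) ha
    have h2 := e_kraw (k := k) hb
    have h3 : (e k n b : ℝ) ≤ e k n a := by exact_mod_cast h b hb
    linarith
  · rintro ⟨ha, h⟩
    refine ⟨ha, fun b hb => ?_⟩
    have h1 := e_kraw (k := k) ha
    have h2 := e_kraw (k := k) hb
    have h3 := h b hb
    have h4 : (e k n b : ℝ) ≤ e k n a := by linarith
    exact_mod_cast h4

/-- The rescaled Krawtchouk polynomials, `ε = 1 / N`; for `ε = 0` these are the Hermite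
polynomials `He_m(t) / m!`. -/
noncomputable def P : ℕ → ℝ → ℝ → ℝ
  | 0, _, _ => 1
  | 1, _, t => t
  | m + 2, ε, t => (t * P (m + 1) ε t - (1 - m * ε) * P m ε t) / (m + 2)

/-- the derivative of `P m ε` -/
noncomputable def dP : ℕ → ℝ → ℝ → ℝ
  | 0, _, _ => 0
  | 1, _, _ => 1
  | m + 2, ε, t => (P (m + 1) ε t + t * dP (m + 1) ε t - (1 - m * ε) * dP m ε t) / (m + 2)

lemma P_rec (m : ℕ) (ε t : ℝ) :
    ((m : ℝ) + 2) * P (m + 2) ε t = t * P (m + 1) ε t - (1 - m * ε) * P m ε t := by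
  have h : ((m : ℝ) + 2) ≠ 0 := by positivity
  rw [P]
  field_simp

lemma P_cont (m : ℕ) : Continuous (fun z : ℝ × ℝ => P m z.1 z.2) := by
  induction m using Nat.strong_induction_on with
  | _ m ih =>
    match m, ih with
    | 0, _ => exact continuous_const
    | 1, _ => exact continuous_snd
    | m + 2, ih =>
      have h1 := ih (m + 1) (by omega)
      have h0 := ih m (by omega)
      have : (fun z : ℝ × ℝ => P (m + 2) z.1 z.2) = fun z =>
          (z.2 * P (m + 1) z.1 z.2 - (1 - m * z.1) * P m z.1 z.2) / (m + 2) := by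
        funext z; rw [P]
      rw [this]
      refine Continuous.div_const ?_ _
      exact (continuous_snd.mul h1).sub
        ((continuous_const.sub (continuous_const.mul continuous_fst)).mul h0)

lemma dP_cont (m : ℕ) : Continuous (fun z : ℝ × ℝ => dP m z.1 z.2) := by
  induction m using Nat.strong_induction_on with
  | _ m ih =>
    match m, ih with
    | 0, _ => exact continuous_const
    | 1, _ => exact continuous_const
    | m + 2, ih =>
      have h1 := ih (m + 1) (by omega)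
      have h0 := ih m (by omega)
      have : (fun z : ℝ × ℝ => dP (m + 2) z.1 z.2) = fun z =>
          (P (m + 1) z.1 z.2 + z.2 * dP (m + 1) z.1 z.2 - (1 - m * z.1) * dP m z.1 z.2)
            / (m + 2) := by
        funext z; rw [dP]
      rw [this]
      refine Continuous.div_const ?_ _
      exact ((P_cont (m + 1)).add (continuous_snd.mul h1)).sub
        ((continuous_const.sub (continuous_const.mul continuous_fst)).mul h0)

lemma P_hasDeriv (m : ℕ) (ε t : ℝ) : HasDerivAt (fun t => P m ε t) (dP m ε t) t := by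
  induction m using Nat.strong_induction_on with
  | _ m ih =>
    match m, ih with
    | 0, _ => exact hasDerivAt_const _ _
    | 1, _ => exact hasDerivAt_id' t
    | m + 2, ih =>
      have h1 := ih (m + 1) (by omega)
      have h0 := ih m (by omega)
      have : (fun t => P (m + 2) ε t) = fun t =>
          (t * P (m + 1) ε t - (1 - m * ε) * P m ε t) / (m + 2) := by
        funext z; rw [P]
      rw [this, dP]
      have h2 := (((hasDerivAt_id' t).mul h1).sub (h0.const_mul (1 - m * ε))).div_const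
        ((m : ℝ) + 2)
      refine h2.congr_deriv ?_
      rw [one_mul]

lemma dP_zero (m : ℕ) (t : ℝ) : dP (m + 1) 0 t = P m 0 t := by
  induction m using Nat.strong_induction_on with
  | _ m ih =>
    match m, ih with
    | 0, _ => simp [dP, P]
    | 1, _ => simp [dP, P]
    | m + 2, ih =>
      have h1 := ih (m + 1) (by omega)
      have h0 := ih m (by omega)
      have h2 := P_rec m 0 t
      have h3 : ((m : ℝ) + 1 + 2) ≠ 0 := by positivity
      rw [dP, h1, h0]
      push_cast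
      rw [div_eq_iff h3]
      simp only [mul_zero, sub_zero, one_mul] at h2 ⊢
      linear_combination -h2

lemma P_hasDeriv_zero (m : ℕ) (t : ℝ) : HasDerivAt (fun t => P (m + 1) 0 t) (P m 0 t) t := by
  have h := P_hasDeriv (m + 1) 0 t
  rw [dP_zero] at h
  exact h

lemma P_growth (m : ℕ) {ε t : ℝ} (h0 : 0 ≤ ε) (ht : 2 * (m : ℝ) + 1 ≤ t) :
    0 < P m ε t ∧ P m ε t ≤ P (m + 1) ε t := by
  induction m with
  | zero =>
    simp only [P]
    constructor
    · norm_num
    · push_cast at ht; linarith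
  | succ m ih =>
    push_cast at ht
    obtain ⟨h2, h3⟩ := ih (by linarith)
    refine ⟨by linarith, ?_⟩
    have h4 := P_rec m ε t
    have hm : (0 : ℝ) ≤ m := Nat.cast_nonneg m
    have h5 : (1 - m * ε) * P m ε t ≤ P (m + 1) ε t := by
      have : (1 - m * ε) ≤ 1 := by nlinarith
      nlinarith
    have h6 : ((m : ℝ) + 2) * P (m + 1) ε t ≤ ((m : ℝ) + 2) * P (m + 2) ε t := by
      rw [h4]
      nlinarith
    exact le_of_mul_le_mul_left h6 (by positivity)

/-- the largest zeros of the Hermite polynomials -/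
lemma root (m : ℕ) : ∃ τ : ℝ, 0 ≤ τ ∧ (1 ≤ m → 0 < τ) ∧ P (m + 1) 0 τ = 0 ∧
    (∀ t, τ < t → 0 < P (m + 1) 0 t) ∧ ∀ t, τ ≤ t → 0 < P m 0 t := by
  induction m with
  | zero =>
    refine ⟨0, le_rfl, by omega, ?_, ?_, ?_⟩
    · simp [P]
    · intro t ht; simpa [P] using ht
    · intro t _; simp [P]
  | succ m ih =>
    obtain ⟨τ, hτ0, -, hτ, hpos, hpos'⟩ := ih
    have h1 : P (m + 2) 0 τ < 0 := by
      have h2 := P_rec m 0 τ
      rw [hτ] at h2
      have h3 := hpos' τ le_rfl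
      have hm : (0 : ℝ) ≤ m := Nat.cast_nonneg m
      by_contra hcon
      push Not at hcon
      have : 0 ≤ ((m : ℝ) + 2) * P (m + 2) 0 τ := by positivity
      simp only [mul_zero, sub_zero, one_mul] at h2
      linarith
    set T : ℝ := max (τ + 1) (2 * ((m + 2 : ℕ) : ℝ) + 1) with hT
    have hT1 : τ < T := lt_of_lt_of_le (by linarith) (le_max_left _ _)
    have hT2 : 0 < P (m + 2) 0 T := (P_growth (m + 2) le_rfl (le_max_right _ _)).1
    have hcont : Continuous (fun t => P (m + 2) 0 t) :=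
      (P_cont (m + 2)).comp (continuous_const.prodMk continuous_id)
    have hmono : StrictMonoOn (fun t => P (m + 2) 0 t) (Set.Ici τ) := by
      refine strictMonoOn_of_deriv_pos (convex_Ici τ) hcont.continuousOn ?_
      intro x hx
      rw [interior_Ici, Set.mem_Ioi] at hx
      rw [(P_hasDeriv_zero (m + 1) x).deriv]
      exact hpos x hx
    obtain ⟨τ', hτ', hz⟩ := intermediate_value_Icc hT1.le hcont.continuousOn
      (show (0 : ℝ) ∈ Set.Icc (P (m + 2) 0 τ) (P (m + 2) 0 T) from ⟨h1.le, hT2.le⟩)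
    simp only at hz
    have hne : τ < τ' := by
      rcases lt_or_eq_of_le hτ'.1 with h | h
      · exact h
      · rw [← h] at hz
        linarith
    refine ⟨τ', by linarith, fun _ => by linarith, hz, ?_, ?_⟩
    · intro t ht
      have h2 := hmono (Set.mem_Ici.2 hne.le) (Set.mem_Ici.2 (hne.le.trans ht.le)) ht
      simp only at h2
      rw [hz] at h2
      exact h2
    · intro t ht
      exact hpos t (by linarith)

/-- Sonin's argument for the Hermite polynomials. -/
lemma sonin {m : ℕ} {τ σ : ℝ} (hσ0 : 0 ≤ σ) (hστ : σ < τ) (hτ : P (m + 1) 0 τ = 0)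
    (hpos : ∀ t, σ ≤ t → 0 < P m 0 t) {t : ℝ} (ht0 : 0 ≤ t) (ht : t < τ) :
    P (m + 2) 0 τ < P (m + 2) 0 t := by
  set E : ℝ → ℝ := fun t => ((m : ℝ) + 2) * P (m + 2) 0 t ^ 2 + P (m + 1) 0 t ^ 2 with hE
  have hm : (0 : ℝ) ≤ m := Nat.cast_nonneg m
  have hcm : ∀ j, Continuous (fun t => P j 0 t) := fun j =>
    (P_cont j).comp (continuous_const.prodMk continuous_id)
  have hEc : Continuous E := by
    simp only [hE]
    exact (continuous_const.mul ((hcm (m + 2)).pow 2)).add ((hcm (m + 1)).pow 2)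
  have hEd : ∀ t, HasDerivAt E (2 * t * P (m + 1) 0 t ^ 2) t := by
    intro t
    have h1 := ((P_hasDeriv_zero (m + 1) t).pow 2).const_mul ((m : ℝ) + 2)
    have h2 := (P_hasDeriv_zero m t).pow 2
    have h3 := h1.add h2
    have h4 := P_rec m 0 t
    refine h3.congr_deriv ?_
    simp only [mul_zero, sub_zero, one_mul] at h4
    push_cast
    linear_combination (2 * P (m + 1) 0 t) * h4
  have hmono : MonotoneOn E (Set.Ici 0) := by
    refine monotoneOn_of_deriv_nonneg (convex_Ici 0) hEc.continuousOn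
      (fun x _ => (hEd x).differentiableAt.differentiableWithinAt) ?_
    intro x hx
    rw [interior_Ici, Set.mem_Ioi] at hx
    rw [(hEd x).deriv]
    positivity
  have hmono1 : StrictMonoOn (fun t => P (m + 1) 0 t) (Set.Ici σ) := by
    refine strictMonoOn_of_deriv_pos (convex_Ici σ) (hcm (m + 1)).continuousOn ?_
    intro x hx
    rw [interior_Ici, Set.mem_Ioi] at hx
    rw [(P_hasDeriv_zero m x).deriv]
    exact hpos x hx.le
  have hstrict : StrictMonoOn E (Set.Icc σ τ) := by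
    refine strictMonoOn_of_deriv_pos (convex_Icc σ τ) hEc.continuousOn ?_
    intro x hx
    rw [interior_Icc, Set.mem_Ioo] at hx
    rw [(hEd x).deriv]
    have h1 := hmono1 (Set.mem_Ici.2 hx.1.le) (Set.mem_Ici.2 hστ.le) hx.2
    simp only at h1
    rw [hτ] at h1
    have h2 : 0 < P (m + 1) 0 x ^ 2 := by
      have := h1.ne
      positivity
    have h3 : 0 < x := lt_of_le_of_lt hσ0 hx.1
    positivity
  have h1 : E t ≤ E (max t σ) := hmono (Set.mem_Ici.2 ht0)
    (Set.mem_Ici.2 (ht0.trans (le_max_left _ _))) (le_max_left _ _)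
  have h2 : E (max t σ) < E τ := hstrict ⟨le_max_right _ _, (max_lt ht hστ).le⟩
    ⟨hστ.le, le_rfl⟩ (max_lt ht hστ)
  have h3 : E t < E τ := lt_of_le_of_lt h1 h2
  simp only [hE] at h3
  rw [hτ] at h3
  have h4 := P_rec m 0 τ
  rw [hτ] at h4
  simp only [mul_zero, sub_zero, one_mul] at h4
  have h5 := hpos τ hστ.le
  have h6 : P (m + 2) 0 τ < 0 := by
    by_contra hcon
    push Not at hcon
    have : 0 ≤ ((m : ℝ) + 2) * P (m + 2) 0 τ := by positivity
    linarith
  by_contra hcon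
  push Not at hcon
  have h7 : P (m + 2) 0 τ ^ 2 ≤ P (m + 2) 0 t ^ 2 := by nlinarith
  nlinarith [sq_nonneg (P (m + 1) 0 t)]

lemma tube {f : ℝ × ℝ → ℝ} (hf : Continuous f) {a b : ℝ}
    (hpos : ∀ t ∈ Set.Icc a b, 0 < f (0, t)) :
    ∃ ε₀ : ℝ, 0 < ε₀ ∧ ∀ ε, 0 ≤ ε → ε < ε₀ → ∀ t ∈ Set.Icc a b, 0 < f (ε, t) := by
  have hopen : IsOpen {z : ℝ × ℝ | 0 < f z} := isOpen_lt continuous_const hf
  obtain ⟨u, v, hu, hv, h0u, hv2, huv⟩ := generalized_tube_lemma (isCompact_singleton (x := (0 : ℝ)))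
    (isCompact_Icc (a := a) (b := b)) hopen (by
      rintro ⟨x, t⟩ ⟨hx, ht⟩
      simp only [Set.mem_singleton_iff] at hx
      subst hx
      exact hpos t ht)
  obtain ⟨ε₀, hε₀, hball⟩ := Metric.isOpen_iff.1 hu 0 (h0u (Set.mem_singleton _))
  refine ⟨ε₀, hε₀, fun ε h1 h2 t ht => ?_⟩
  have h3 : ε ∈ u := hball (by rw [Metric.mem_ball, Real.dist_eq, sub_zero, abs_of_nonneg h1]; exact h2)
  exact huv (Set.mk_mem_prod h3 (hv2 ht))

lemma kraw_P (m : ℕ) {N : ℝ} (hN : 0 < N) (x : ℝ) :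
    kraw m N x = Real.sqrt N ^ m * P m (1 / N) ((N - 2 * x) / Real.sqrt N) := by
  have hs : 0 < Real.sqrt N := Real.sqrt_pos.2 hN
  have hs2 : Real.sqrt N ^ 2 = N := Real.sq_sqrt hN.le
  induction m using Nat.strong_induction_on with
  | _ m ih =>
    match m, ih with
    | 0, _ => simp [kraw_zero, P]
    | 1, _ =>
      rw [kraw_one, P]
      field_simp
    | m + 2, ih =>
      have h1 := ih (m + 1) (by omega)
      have h0 := ih m (by omega)
      have h2 := kraw_rec m N x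
      have h3 := P_rec m (1 / N) ((N - 2 * x) / Real.sqrt N)
      have h4 : ((m : ℝ) + 2) ≠ 0 := by positivity
      have h5 : ((m : ℝ) + 2) * kraw (m + 2) N x = ((m : ℝ) + 2) *
          (Real.sqrt N ^ (m + 2) * P (m + 2) (1 / N) ((N - 2 * x) / Real.sqrt N)) := by
        rw [h2, h1, h0]
        rw [show ((m : ℝ) + 2) * (Real.sqrt N ^ (m + 2) *
          P (m + 2) (1 / N) ((N - 2 * x) / Real.sqrt N)) = Real.sqrt N ^ (m + 2) *
          (((m : ℝ) + 2) * P (m + 2) (1 / N) ((N - 2 * x) / Real.sqrt N)) by ring, h3]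
        rw [pow_add, pow_add, hs2, pow_one]
        have e1 : Real.sqrt N ^ m * N * ((N - 2 * x) / Real.sqrt N *
            P (m + 1) (1 / N) ((N - 2 * x) / Real.sqrt N)) = (N - 2 * x) *
            (Real.sqrt N ^ m * Real.sqrt N * P (m + 1) (1 / N) ((N - 2 * x) / Real.sqrt N)) := by
          have : N / Real.sqrt N = Real.sqrt N := by
            rw [div_eq_iff hs.ne']; rw [← pow_two, hs2]
          calc _ = Real.sqrt N ^ m * (N / Real.sqrt N) * ((N - 2 * x) *
                P (m + 1) (1 / N) ((N - 2 * x) / Real.sqrt N)) := by ring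
            _ = _ := by rw [this]; ring
        rw [mul_sub, e1]
        have e2 : Real.sqrt N ^ m * N * ((1 - m * (1 / N)) *
            P m (1 / N) ((N - 2 * x) / Real.sqrt N)) = (N - m) *
            (Real.sqrt N ^ m * P m (1 / N) ((N - 2 * x) / Real.sqrt N)) := by
          have : N * (1 - m * (1 / N)) = N - m := by
            field_simp
          calc _ = Real.sqrt N ^ m * (N * (1 - m * (1 / N))) *
                P m (1 / N) ((N - 2 * x) / Real.sqrt N) := by ring
            _ = _ := by rw [this]; ring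
        rw [e2]
      exact mul_left_cancel₀ h4 h5

/-- The combinatorial part of the argument. -/
lemma core {K : ℕ → ℝ} {n : ℕ} {x₁ X : ℝ} (hx0 : 0 ≤ x₁) (hx1 : x₁ + 1 < (n : ℝ) / 2)
    (h1 : ∀ a : ℕ, (a : ℝ) < x₁ → K (a + 1) < K a)
    (h2 : ∀ a : ℕ, x₁ < (a : ℝ) → (a : ℝ) ≤ X → K a < K (a + 1))
    (h3 : ∀ a : ℕ, (a : ℝ) = x₁ → K (a + 1) = K a)
    {b : ℕ} (hb : (b : ℝ) ≤ X + 1)
    (h4 : ∀ a : ℕ, X + 1 < (a : ℝ) → (a : ℝ) ≤ (n : ℝ) / 2 → K b < K a)
    (hsym : ∀ a : ℕ, a ≤ n → K (n - a) = K a) (a : ℕ) :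
    (a ≤ n ∧ ∀ c : ℕ, c ≤ n → K a ≤ K c) ↔
      a ≤ n ∧ ((x₁ ≤ a ∧ (a : ℝ) ≤ x₁ + 1) ∨ (x₁ ≤ (n : ℝ) - a ∧ (n : ℝ) - a ≤ x₁ + 1)) := by
  obtain ⟨a0, ha0⟩ : ∃ a0 : ℕ, a0 = ⌈x₁⌉₊ := ⟨_, rfl⟩
  have ha0l : x₁ ≤ a0 := by rw [ha0]; exact Nat.le_ceil _
  have ha0u : (a0 : ℝ) < x₁ + 1 := by rw [ha0]; exact Nat.ceil_lt_add_one hx0
  have hOpt : ∀ a : ℕ, x₁ ≤ a → (a : ℝ) ≤ x₁ + 1 → K a = K a0 := by
    intro a h5 h6
    have h7 : a0 ≤ a := by rw [ha0]; exact Nat.ceil_le.2 h5
    rcases Nat.lt_or_ge a0 a with h8 | h8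
    · have h9 : ((a0 + 1 : ℕ) : ℝ) ≤ a := by exact_mod_cast h8
      push_cast at h9
      have h10 : (a0 : ℝ) = x₁ := by linarith
      have h11 : (a : ℝ) < ((a0 + 2 : ℕ) : ℝ) := by push_cast; linarith
      have h12 : a = a0 + 1 := by
        have : a < a0 + 2 := by exact_mod_cast h11
        omega
      rw [h12]
      exact h3 a0 h10
    · have : a = a0 := by omega
      rw [this]
  have hdown : ∀ d a : ℕ, a + d + 1 = a0 → K a0 < K a := by
    intro d
    induction d with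
    | zero =>
      intro a ha
      have : (a : ℝ) < x₁ := by
        rw [← Nat.lt_ceil, ← ha0]; omega
      rw [← ha]
      exact h1 a this
    | succ d ih =>
      intro a ha
      have : (a : ℝ) < x₁ := by
        rw [← Nat.lt_ceil, ← ha0]; omega
      exact (ih (a + 1) (by omega)).trans (h1 a this)
  have hup : ∀ a : ℕ, a0 ≤ a → (a : ℝ) ≤ X + 1 → K a0 ≤ K a ∧ (x₁ + 1 < a → K a0 < K a) := by
    intro a ha
    induction a, ha using Nat.le_induction with
    | base => exact fun _ => ⟨le_rfl, fun h => by linarith⟩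
    | succ a ha ih =>
      intro hX
      push_cast at hX
      have hax : x₁ ≤ (a : ℝ) := ha0l.trans (by exact_mod_cast ha)
      obtain ⟨h5, -⟩ := ih (by linarith)
      rcases lt_or_eq_of_le hax with h6 | h6
      · have h7 := h2 a h6 (by linarith)
        exact ⟨by linarith, fun _ => by linarith⟩
      · have h7 := h3 a h6.symm
        refine ⟨by linarith, fun h => ?_⟩
        push_cast at h
        linarith
  -- everything up to `n / 2`
  have hlow : ∀ a : ℕ, (a : ℝ) ≤ X + 1 →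
      K a0 ≤ K a ∧ (¬ (x₁ ≤ a ∧ (a : ℝ) ≤ x₁ + 1) → K a0 < K a) := by
    intro a hX
    rcases Nat.lt_or_ge a a0 with h | h
    · have h5 := hdown (a0 - a - 1) a (by omega)
      exact ⟨h5.le, fun _ => h5⟩
    · obtain ⟨h5, h6⟩ := hup a h hX
      refine ⟨h5, fun h7 => h6 ?_⟩
      by_contra hcon
      push Not at hcon
      exact h7 ⟨ha0l.trans (by exact_mod_cast h), hcon⟩
  have hhalf : ∀ a : ℕ, (a : ℝ) ≤ (n : ℝ) / 2 →
      K a0 ≤ K a ∧ (¬ (x₁ ≤ a ∧ (a : ℝ) ≤ x₁ + 1) → K a0 < K a) := by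
    intro a ha
    rcases le_or_gt (a : ℝ) (X + 1) with h | h
    · exact hlow a h
    · have h5 := h4 a h ha
      have h6 := (hlow b hb).1
      exact ⟨by linarith, fun _ => by linarith⟩
  have hcast : ∀ a : ℕ, a ≤ n → ((n - a : ℕ) : ℝ) = (n : ℝ) - a := fun a ha => Nat.cast_sub ha
  have hall : ∀ a : ℕ, a ≤ n → K a0 ≤ K a := by
    intro a ha
    rcases le_or_gt (a : ℝ) ((n : ℝ) / 2) with h | h
    · exact (hhalf a h).1
    · rw [← hsym a ha]
      refine (hhalf (n - a) ?_).1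
      rw [hcast a ha]
      linarith
  have ha0n : a0 ≤ n := by
    have h5 : (a0 : ℝ) ≤ n := by
      have : (0 : ℝ) ≤ n := Nat.cast_nonneg n
      linarith
    exact_mod_cast h5
  constructor
  · rintro ⟨ha, hmin⟩
    refine ⟨ha, ?_⟩
    have h5 := hmin a0 ha0n
    rcases le_or_gt (a : ℝ) ((n : ℝ) / 2) with h | h
    · left
      by_contra hcon
      have := (hhalf a h).2 hcon
      linarith
    · right
      rw [← hcast a ha]
      by_contra hcon
      have := (hhalf (n - a) (by rw [hcast a ha]; linarith)).2 hcon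
      rw [hsym a ha] at this
      linarith
  · rintro ⟨ha, h | h⟩
    · refine ⟨ha, fun c hc => ?_⟩
      rw [hOpt a h.1 h.2]
      exact hall c hc
    · refine ⟨ha, fun c hc => ?_⟩
      rw [← hcast a ha] at h
      rw [← hsym a ha, hOpt (n - a) h.1 h.2]
      exact hall c hc

set_option maxHeartbeats 4000000 in
/-- For every `k ≥ 2` and all sufficiently large `n`, the set `M_k(n)` of maximisers consists of
the integers in `[x₁, x₁ + 1]` and their reflections `a ↦ n - a`, where `x₁` is the least real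
zero of the Krawtchouk polynomial `K_{2k-1}(x; n - 1)`. -/
theorem main : ∀ k : ℕ, 2 ≤ k → ∃ n₀ : ℕ, ∀ n : ℕ, n₀ ≤ n → ∃ x₁ : ℝ,
    IsLeast {x : ℝ | kraw (2 * k - 1) ((n : ℝ) - 1) x = 0} x₁ ∧
    ∀ a : ℕ, a ∈ M k n ↔
      a ≤ n ∧ ((x₁ ≤ a ∧ (a : ℝ) ≤ x₁ + 1) ∨ (x₁ ≤ (n : ℝ) - a ∧ (n : ℝ) - a ≤ x₁ + 1)) := by
  intro k hk
  obtain ⟨m, hm⟩ : ∃ m, 2 * k = m + 2 := ⟨2 * k - 2, by omega⟩
  have hm1 : 1 ≤ m := by omega
  have hk1 : 2 * k - 1 = m + 1 := by omega
  obtain ⟨τ, hτ0, hτpos, hτ, hpos, hpos'⟩ := root m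
  have hτp : 0 < τ := hτpos hm1
  have hc0 : ∀ j, Continuous (fun t => P j 0 t) := fun j =>
    (P_cont j).comp (continuous_const.prodMk continuous_id)
  -- choose `σ`
  obtain ⟨σ, hσ0, hστ, hσ⟩ : ∃ σ, 0 < σ ∧ σ < τ ∧ ∀ t, σ ≤ t → 0 < P m 0 t := by
    have h1 : ∀ᶠ t in nhds τ, 0 < P m 0 t :=
      (hc0 m).continuousAt.eventually (lt_mem_nhds (hpos' τ le_rfl))
    obtain ⟨δ, hδ, hball⟩ := Metric.eventually_nhds_iff.1 h1
    refine ⟨max (τ / 2) (τ - δ / 2), lt_of_lt_of_le (by linarith) (le_max_left _ _),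
      max_lt (by linarith) (by linarith), fun t ht => ?_⟩
    rcases le_or_gt τ t with h | h
    · exact hpos' t h
    · apply hball
      rw [Real.dist_eq, abs_lt]
      have := le_of_max_le_right ht
      constructor <;> linarith
  -- the gap `c`
  obtain ⟨t0, ht0, hmin⟩ := isCompact_Icc.exists_isMinOn
    (Set.nonempty_Icc.2 hσ0.le) (hc0 (m + 2)).continuousOn
  have hgap := sonin hσ0.le hστ hτ hσ ht0.1 (lt_of_le_of_lt ht0.2 hστ)
  set c : ℝ := P (m + 2) 0 t0 - P (m + 2) 0 τ with hc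
  have hcpos : 0 < c := by rw [hc]; linarith
  have hmin' : ∀ t ∈ Set.Icc 0 σ, P (m + 2) 0 τ + c ≤ P (m + 2) 0 t := by
    intro t ht
    have := hmin ht
    simp only [Set.mem_ofPred_eq] at this
    rw [hc]
    linarith
  set R : ℝ := max (τ + 2) (2 * ((m + 1 : ℕ) : ℝ) + 1) with hR
  have hR1 : τ + 2 ≤ R := le_max_left _ _
  have hR2 : 2 * ((m + 1 : ℕ) : ℝ) + 1 ≤ R := le_max_right _ _
  -- uniform statements
  obtain ⟨ε₁, hε₁, hd1⟩ := tube (f := fun z => dP (m + 1) z.1 z.2) (dP_cont (m + 1))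
    (a := σ) (b := R) (fun t ht => by
      simp only
      rw [dP_zero]
      exact hσ t ht.1)
  have hPσ : P (m + 1) 0 σ < 0 := by
    have hmono1 : StrictMonoOn (fun t => P (m + 1) 0 t) (Set.Ici σ) := by
      refine strictMonoOn_of_deriv_pos (convex_Ici σ) (hc0 (m + 1)).continuousOn ?_
      intro x hx
      rw [interior_Ici, Set.mem_Ioi] at hx
      rw [(P_hasDeriv_zero m x).deriv]
      exact hσ x hx.le
    have h := hmono1 (Set.mem_Ici.2 le_rfl) (Set.mem_Ici.2 hστ.le) hστ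
    simp only at h
    rw [hτ] at h
    exact h
  obtain ⟨ε₂, hε₂, hd2⟩ := tube (f := fun z => -P (m + 1) z.1 z.2) (P_cont (m + 1)).neg
    (a := σ) (b := σ) (fun t ht => by
      have : t = σ := le_antisymm ht.2 ht.1
      subst this
      simp only
      linarith)
  have hcd : Continuous (fun z : ℝ × ℝ => P (m + 2) z.1 z.2 - P (m + 2) 0 z.2) :=
    (P_cont (m + 2)).sub ((hc0 (m + 2)).comp continuous_snd)
  obtain ⟨ε₃, hε₃, hd3⟩ := tube
    (f := fun z => c / 4 - (P (m + 2) z.1 z.2 - P (m + 2) 0 z.2)) (continuous_const.sub hcd)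
    (a := 0) (b := R) (fun t _ => by simp only; linarith)
  obtain ⟨ε₄, hε₄, hd4⟩ := tube
    (f := fun z => c / 4 + (P (m + 2) z.1 z.2 - P (m + 2) 0 z.2)) (continuous_const.add hcd)
    (a := 0) (b := R) (fun t _ => by simp only; linarith)
  obtain ⟨η, hη, hball⟩ : ∃ η, 0 < η ∧ ∀ t, |t - τ| < η → P (m + 2) 0 t < P (m + 2) 0 τ + c / 4 := by
    have h1 : ∀ᶠ t in nhds τ, P (m + 2) 0 t < P (m + 2) 0 τ + c / 4 :=
      (hc0 (m + 2)).continuousAt.eventually (gt_mem_nhds (by linarith))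
    obtain ⟨δ, hδ, hb⟩ := Metric.eventually_nhds_iff.1 h1
    exact ⟨δ, hδ, fun t ht => hb (by rw [Real.dist_eq]; exact ht)⟩
  -- large `n`
  have htend : Filter.Tendsto (fun n : ℕ => (n : ℝ) - 1) Filter.atTop Filter.atTop :=
    Filter.tendsto_atTop_add_const_right _ _ tendsto_natCast_atTop_atTop
  have hsq : Filter.Tendsto (fun n : ℕ => Real.sqrt ((n : ℝ) - 1)) Filter.atTop Filter.atTop :=
    Real.tendsto_sqrt_atTop.comp htend
  set B : ℝ := max (max (max 1 R) (max (1 / σ) (2 / η))) (max (max (1 / ε₁) (1 / ε₂))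
    (max (1 / ε₃) (1 / ε₄))) + 1 with hB
  have hBge : ∀ x ∈ ({1, R, 1 / σ, 2 / η, 1 / ε₁, 1 / ε₂, 1 / ε₃, 1 / ε₄} : Set ℝ), x < B := by
    intro x hx
    rw [hB]
    simp only [Set.mem_insert_iff, Set.mem_singleton_iff] at hx
    have : x ≤ max (max (max 1 R) (max (1 / σ) (2 / η))) (max (max (1 / ε₁) (1 / ε₂))
        (max (1 / ε₃) (1 / ε₄))) := by
      simp only [le_max_iff]
      rcases hx with rfl | rfl | rfl | rfl | rfl | rfl | rfl | rfl <;> simp
    linarith
  obtain ⟨n₀, hn₀⟩ := Filter.eventually_atTop.1 (hsq.eventually_gt_atTop B)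
  refine ⟨n₀, fun n hn => ?_⟩
  have hsB := hn₀ n hn
  set N : ℝ := (n : ℝ) - 1 with hN
  set s : ℝ := Real.sqrt N with hs
  have hB1 : 1 < B := hBge 1 (by simp)
  have hs1 : 1 < s := by linarith
  have hN1 : 1 < N := by
    by_contra hcon
    push Not at hcon
    have : s ≤ 1 := by rw [hs]; exact Real.sqrt_le_one.2 hcon
    linarith
  have hN0 : 0 < N := by linarith
  have hs2 : s ^ 2 = N := Real.sq_sqrt hN0.le
  have hs0 : 0 < s := by linarith
  have hNs : s ≤ N := by nlinarith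
  have hinv : ∀ ε : ℝ, 0 < ε → 1 / ε < B → 1 / N < ε := by
    intro ε hε h
    rw [div_lt_iff₀ hN0]
    rw [div_lt_iff₀ hε] at h
    nlinarith
  set r : ℝ := 1 / N with hr
  have hr0 : 0 ≤ r := by rw [hr]; positivity
  have hr1 : r < ε₁ := hinv ε₁ hε₁ (hBge _ (by simp))
  have hr2 : r < ε₂ := hinv ε₂ hε₂ (hBge _ (by simp))
  have hr3 : r < ε₃ := hinv ε₃ hε₃ (hBge _ (by simp))
  have hr4 : r < ε₄ := hinv ε₄ hε₄ (hBge _ (by simp))
  have hRs : R < s := lt_trans (hBge R (by simp)) hsB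
  have hσs : 1 / σ < s := lt_trans (hBge _ (by simp)) hsB
  have hηs : 2 / η < s := lt_trans (hBge _ (by simp)) hsB
  have hσs' : 1 < σ * s := by
    rw [div_lt_iff₀ hσ0] at hσs
    linarith
  -- the largest zero `t₁` of `P (m + 1) r`
  have hcr : Continuous (fun t => P (m + 1) r t) :=
    (P_cont (m + 1)).comp (continuous_const.prodMk continuous_id)
  have hmono : StrictMonoOn (fun t => P (m + 1) r t) (Set.Icc σ R) := by
    refine strictMonoOn_of_deriv_pos (convex_Icc σ R) hcr.continuousOn ?_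
    intro x hx
    rw [interior_Icc, Set.mem_Ioo] at hx
    rw [(P_hasDeriv (m + 1) r x).deriv]
    exact hd1 r hr0 hr1 x ⟨hx.1.le, hx.2.le⟩
  have hneg : P (m + 1) r σ < 0 := by
    have := hd2 r hr0 hr2 σ ⟨le_rfl, le_rfl⟩
    simp only at this
    linarith
  have hbig : ∀ t, R ≤ t → 0 < P (m + 1) r t := fun t ht =>
    (P_growth (m + 1) hr0 (hR2.trans ht)).1
  have hσR : σ < R := by linarith
  obtain ⟨t₁, ht₁, hz⟩ := intermediate_value_Icc hσR.le hcr.continuousOn
    (show (0 : ℝ) ∈ Set.Icc (P (m + 1) r σ) (P (m + 1) r R) from ⟨hneg.le, (hbig R le_rfl).le⟩)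
  simp only at hz
  have ht₁σ : σ < t₁ := by
    rcases lt_or_eq_of_le ht₁.1 with h | h
    · exact h
    · rw [← h] at hz
      linarith
  have hgt : ∀ t, t₁ < t → 0 < P (m + 1) r t := by
    intro t ht
    rcases le_or_gt R t with h | h
    · exact hbig t h
    · have h1 := hmono ht₁ ⟨by linarith [ht₁.1], h.le⟩ ht
      simp only at h1
      rw [hz] at h1
      exact h1
  have hlt : ∀ t, σ ≤ t → t < t₁ → P (m + 1) r t < 0 := by
    intro t h1 h2
    have h3 := hmono ⟨h1, by linarith [ht₁.2]⟩ ht₁ h2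
    simp only at h3
    rw [hz] at h3
    exact h3
  set x₁ : ℝ := (N - s * t₁) / 2 with hx₁
  have hkr : ∀ x, kraw (m + 1) N x = s ^ (m + 1) * P (m + 1) r ((N - 2 * x) / s) :=
    fun x => kraw_P (m + 1) hN0 x
  have hsp : 0 < s ^ (m + 1) := by positivity
  have hzero : kraw (m + 1) N x₁ = 0 := by
    rw [hkr]
    have : (N - 2 * x₁) / s = t₁ := by
      rw [hx₁]; field_simp; ring
    rw [this, hz, mul_zero]
  have hD1 : ∀ x, x < x₁ → 0 < kraw (m + 1) N x := by
    intro x hx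
    rw [hkr]
    apply mul_pos hsp
    apply hgt
    rw [lt_div_iff₀ hs0]
    rw [hx₁] at hx
    linarith
  set X : ℝ := (N - σ * s) / 2 with hX
  have hD2 : ∀ x, x₁ < x → x ≤ X → kraw (m + 1) N x < 0 := by
    intro x hx hxX
    rw [hkr]
    apply mul_neg_of_pos_of_neg hsp
    apply hlt
    · rw [le_div_iff₀ hs0]
      rw [hX] at hxX
      linarith
    · rw [div_lt_iff₀ hs0]
      rw [hx₁] at hx
      linarith
  refine ⟨x₁, ?_, ?_⟩
  · rw [hk1]
    refine ⟨hzero, fun x hx => ?_⟩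
    by_contra hcon
    push Not at hcon
    have h1 := hD1 x hcon
    have h2 : kraw (m + 1) N x = 0 := hx
    linarith
  · intro a
    rw [mem_M_iff]
    have hdiff : ∀ a : ℕ, kraw (2 * k) n a - kraw (2 * k) n ((a + 1 : ℕ) : ℝ) =
        2 * kraw (m + 1) N a := by
      intro a
      have h1 := kraw_diff (m + 1) N a
      have h2 : N + 1 = n := by rw [hN]; ring
      rw [h2] at h1
      rw [hm]
      push_cast
      exact h1
    have hx₁0 : 0 ≤ x₁ := by
      rw [hx₁]
      have h1 : s * t₁ ≤ s * s := by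
        apply mul_le_mul_of_nonneg_left _ hs0.le
        linarith [ht₁.2]
      have h2 : s * s = N := by rw [← pow_two, hs2]
      linarith
    have hx₁1 : x₁ + 1 < (n : ℝ) / 2 := by
      rw [hx₁]
      have h1 : σ * s < s * t₁ := by nlinarith
      have h2 : N = n - 1 := hN
      linarith
    have hn0 : (0 : ℝ) < n := by linarith
    have hNn : N ≤ n := by linarith
    have hsn : s ≤ Real.sqrt n := by
      rw [hs]
      exact Real.sqrt_le_sqrt hNn
    have hsn0 : 0 < Real.sqrt n := by linarith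
    have hsn2 : Real.sqrt n ^ 2 = n := Real.sq_sqrt hn0.le
    have hrn0 : (0 : ℝ) ≤ 1 / n := by positivity
    have hrn : 1 / (n : ℝ) ≤ r := by
      rw [hr]
      exact one_div_le_one_div_of_le hN0 hNn
    -- the comparison point
    have hnum : 0 ≤ ((n : ℝ) - τ * Real.sqrt n) / 2 := by
      have h1 : τ * Real.sqrt n ≤ Real.sqrt n * Real.sqrt n := by
        apply mul_le_mul_of_nonneg_right _ hsn0.le
        linarith
      rw [← pow_two, hsn2] at h1
      linarith
    obtain ⟨b, hbdef⟩ : ∃ b : ℕ, b = ⌊((n : ℝ) - τ * Real.sqrt n) / 2⌋₊ := ⟨_, rfl⟩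
    have hb1 : (b : ℝ) ≤ ((n : ℝ) - τ * Real.sqrt n) / 2 := by
      rw [hbdef]; exact Nat.floor_le hnum
    have hb2 : ((n : ℝ) - τ * Real.sqrt n) / 2 < b + 1 := by
      rw [hbdef]; exact Nat.lt_floor_add_one _
    have hbX : (b : ℝ) ≤ X + 1 := by
      refine hb1.trans ?_
      rw [hX]
      have h1 : σ * s ≤ τ * Real.sqrt n := by
        apply mul_le_mul hστ.le hsn hs0.le hτ0
      have h2 : N = n - 1 := hN
      linarith
    have hKP : ∀ x, kraw (2 * k) n x = Real.sqrt n ^ (m + 2) *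
        P (m + 2) (1 / n) (((n : ℝ) - 2 * x) / Real.sqrt n) := by
      intro x
      rw [hm]
      exact kraw_P (m + 2) hn0 x
    have hsnp : 0 < Real.sqrt n ^ (m + 2) := by positivity
    have hKb : kraw (2 * k) n b < Real.sqrt n ^ (m + 2) * (P (m + 2) 0 τ + c / 2) := by
      rw [hKP]
      apply mul_lt_mul_of_pos_left _ hsnp
      set tb : ℝ := ((n : ℝ) - 2 * b) / Real.sqrt n with htb
      have h1 : τ ≤ tb := by
        rw [htb, le_div_iff₀ hsn0]; linarith
      have h2 : tb < τ + 2 / Real.sqrt n := by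
        rw [htb, div_lt_iff₀ hsn0, add_mul, div_mul_cancel₀ _ hsn0.ne']
        linarith
      have h3 : 2 / Real.sqrt n < η := by
        rw [div_lt_iff₀ hsn0]
        rw [div_lt_iff₀ hη] at hηs
        nlinarith
      have h4 : 2 / Real.sqrt n ≤ 2 := by
        rw [div_le_iff₀ hsn0]
        linarith
      have h5 := hball tb (by rw [abs_lt]; constructor <;> linarith)
      have h6 := hd3 (1 / n) hrn0 (by linarith) tb ⟨by linarith, by linarith⟩
      simp only at h6
      linarith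
    refine core (K := fun a : ℕ => kraw (2 * k) n (a : ℝ)) (X := X) (b := b) hx₁0 hx₁1 ?_ ?_ ?_
      hbX ?_ ?_ a
    · intro a ha
      have h1 := hD1 a ha
      have h2 := hdiff a
      linarith
    · intro a ha haX
      have h1 := hD2 a ha haX
      have h2 := hdiff a
      linarith
    · intro a ha
      have h2 := hdiff a
      rw [ha, hzero] at h2
      rw [← ha] at h2
      linarith
    · intro a haX han
      refine lt_trans hKb ?_
      rw [hKP]
      apply mul_lt_mul_of_pos_left _ hsnp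
      set ta : ℝ := ((n : ℝ) - 2 * a) / Real.sqrt n with hta
      have h1 : 0 ≤ ta := by
        rw [hta]
        apply div_nonneg _ hsn0.le
        linarith
      have h2 : ta ≤ σ := by
        rw [hta, div_le_iff₀ hsn0]
        rw [hX] at haX
        have h3 : σ * s ≤ σ * Real.sqrt n := mul_le_mul_of_nonneg_left hsn hσ0.le
        have h4 : N = n - 1 := hN
        linarith
      have h3 := hmin' ta ⟨h1, h2⟩
      have h4 := hd4 (1 / n) hrn0 (by linarith) ta ⟨h1, by linarith⟩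
      simp only at h4
      linarith
    · intro a ha
      rw [Nat.cast_sub ha, kraw_symm, (even_two_mul k).neg_one_pow, one_mul]

lemma kraw_three (N x : ℝ) :
    kraw 3 N x = (N - 2 * x) * ((N - 2 * x) ^ 2 - (3 * N - 2)) / 6 := by
  have h2 := kraw_rec 0 N x
  have h3 := kraw_rec 1 N x
  rw [zero_add, zero_add, kraw_one, kraw_zero] at h2
  norm_num at h2 h3
  rw [kraw_one] at h3
  linear_combination h3 / 3 + (N - 2 * x) / 6 * h2

lemma kraw_five (N x : ℝ) :
    kraw 5 N x = (N - 2 * x) * ((N - 2 * x) ^ 4 - (10 * N - 20) * (N - 2 * x) ^ 2 +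
      (15 * N ^ 2 - 50 * N + 24)) / 120 := by
  have h2 := kraw_rec 0 N x
  have h3 := kraw_three N x
  have h4 := kraw_rec 2 N x
  have h5 := kraw_rec 3 N x
  rw [zero_add, zero_add, kraw_one, kraw_zero] at h2
  norm_num at h2 h4 h5
  rw [h3] at h4 h5
  linear_combination h5 / 5 + (N - 2 * x) / 20 * h4 - (N - 2 * x) * (N - 2) / 40 * h2

lemma least_three {N x₁ : ℝ} (hN : 1 ≤ N) (h : IsLeast {x : ℝ | kraw 3 N x = 0} x₁) :
    x₁ = (N - Real.sqrt (3 * N - 2)) / 2 := by
  refine h.unique ⟨?_, ?_⟩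
  · change kraw 3 N _ = 0
    rw [kraw_three]
    have h1 : N - 2 * ((N - Real.sqrt (3 * N - 2)) / 2) = Real.sqrt (3 * N - 2) := by ring
    rw [h1, Real.sq_sqrt (by linarith)]
    ring
  · intro x hx
    have hx' : kraw 3 N x = 0 := hx
    rw [kraw_three] at hx'
    have h1 : N - 2 * x ≤ Real.sqrt (3 * N - 2) := by
      have h2 : (N - 2 * x) * ((N - 2 * x) ^ 2 - (3 * N - 2)) = 0 := by linarith
      rcases mul_eq_zero.1 h2 with h3 | h3
      · rw [h3]; exact Real.sqrt_nonneg _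
      · apply Real.le_sqrt_of_sq_le
        linarith
    linarith

lemma least_five {N x₁ : ℝ} (hN : 2 ≤ N) (h : IsLeast {x : ℝ | kraw 5 N x = 0} x₁) :
    x₁ = (N - Real.sqrt (5 * N - 10 + Real.sqrt (10 * N ^ 2 - 50 * N + 76))) / 2 := by
  have hD : 0 ≤ 10 * N ^ 2 - 50 * N + 76 := by nlinarith [sq_nonneg (N - 5 / 2)]
  set d : ℝ := Real.sqrt (10 * N ^ 2 - 50 * N + 76) with hd
  have hd0 : 0 ≤ d := Real.sqrt_nonneg _
  have hd2 : d ^ 2 = 10 * N ^ 2 - 50 * N + 76 := Real.sq_sqrt hD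
  have hA : 0 ≤ 5 * N - 10 + d := by linarith
  refine h.unique ⟨?_, ?_⟩
  · change kraw 5 N _ = 0
    rw [kraw_five]
    set y : ℝ := Real.sqrt (5 * N - 10 + d) with hy
    have hy2 : y ^ 2 = 5 * N - 10 + d := Real.sq_sqrt hA
    have h1 : N - 2 * ((N - y) / 2) = y := by ring
    rw [h1]
    have h2 : y ^ 4 = (5 * N - 10 + d) ^ 2 := by rw [← hy2]; ring
    rw [h2, hy2]
    have h3 : (5 * N - 10 + d) ^ 2 - (10 * N - 20) * (5 * N - 10 + d) +
        (15 * N ^ 2 - 50 * N + 24) = 0 := by linear_combination hd2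
    rw [h3]
    ring
  · intro x hx
    have hx' : kraw 5 N x = 0 := hx
    rw [kraw_five] at hx'
    have h1 : N - 2 * x ≤ Real.sqrt (5 * N - 10 + d) := by
      have h2 : (N - 2 * x) * ((N - 2 * x) ^ 4 - (10 * N - 20) * (N - 2 * x) ^ 2 +
          (15 * N ^ 2 - 50 * N + 24)) = 0 := by linarith
      rcases mul_eq_zero.1 h2 with h3 | h3
      · rw [h3]; exact Real.sqrt_nonneg _
      · apply Real.le_sqrt_of_sq_le
        have h4 : ((N - 2 * x) ^ 2 - (5 * N - 10)) ^ 2 = d ^ 2 := by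
          rw [hd2]; linear_combination h3
        have h5 := abs_le_of_sq_le_sq' h4.le hd0
        linarith [h5.2]
    linarith

/-- For every `k ≥ 2` and all sufficiently large `n`, the set `M_k(n)` of maximisers consists of
the integers in `[x₁, x₁ + 1]` and their reflections `a ↦ n - a`, where `x₁` is the least real
zero of the Krawtchouk polynomial `K_{2k-1}(x; n - 1)`; for `k = 2` and `k = 3` the number `x₁` is
given in closed form. -/
theorem result : ∀ k : ℕ, 2 ≤ k → ∃ n₀ : ℕ, ∀ n : ℕ, n₀ ≤ n → ∃ x₁ : ℝ,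
    IsLeast {x : ℝ | kraw (2 * k - 1) ((n : ℝ) - 1) x = 0} x₁ ∧
    (∀ a : ℕ, a ∈ M k n ↔
      a ≤ n ∧ ((x₁ ≤ a ∧ (a : ℝ) ≤ x₁ + 1) ∨ (x₁ ≤ (n : ℝ) - a ∧ (n : ℝ) - a ≤ x₁ + 1))) ∧
    (k = 2 → x₁ = (n - 1 - Real.sqrt (3 * n - 5)) / 2) ∧
    (k = 3 → x₁ =
      (n - 1 - Real.sqrt (5 * n - 15 + Real.sqrt (10 * n ^ 2 - 70 * n + 136))) / 2) := by
  intro k hk
  obtain ⟨n₀, h⟩ := main k hk
  refine ⟨max n₀ 3, fun n hn => ?_⟩
  obtain ⟨x₁, h1, h2⟩ := h n (le_of_max_le_left hn)
  have hn3 : (3 : ℝ) ≤ n := by exact_mod_cast le_of_max_le_right hn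
  refine ⟨x₁, h1, h2, ?_, ?_⟩
  · rintro rfl
    have h3 := least_three (N := (n : ℝ) - 1) (by linarith) h1
    rw [h3]
    congr 3
    ring
  · rintro rfl
    have h3 := least_five (N := (n : ℝ) - 1) (by linarith) h1
    rw [h3]
    have e1 : 5 * ((n : ℝ) - 1) - 10 = 5 * n - 15 := by ring
    have e2 : 10 * ((n : ℝ) - 1) ^ 2 - 50 * ((n : ℝ) - 1) + 76 = 10 * n ^ 2 - 70 * n + 136 := by
      ring
    rw [e1, e2]

end Pool.Agent.Results.MP_66ba75_co.LeastZero
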